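import Mathlib

/-!
Visits of the points `p ^ i q ^ j x`, `(i, j)` in a finite window of exponents.
-/

set_option autoImplicit false

namespace Run7.h303.RT

/-- The number of the pairs `(i, j)` in the finite set `U` such that `p ^ i q ^ j x` lies in the
closed arc with centre `c` and radius `r`. -/
noncomputable def vis (p q : ℕ) (U : Finset (ℕ × ℕ)) (x c : UnitAddCircle) (r : ℝ) : ℕ :=
  {u : ℕ × ℕ | u ∈ U ∧ (p ^ u.1 * q ^ u.2) • x ∈ Metric.closedBall c r}.ncard

/-- The discrepancy of the points `p ^ i q ^ j x`, `(i, j) ∈ U`, is at most `t`: every closed arc is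
visited with a frequency within `t` of its length. -/
def DiscLe (p q : ℕ) (U : Finset (ℕ × ℕ)) (t : ℝ) (x : UnitAddCircle) : Prop :=
  ∀ c : UnitAddCircle, ∀ r : ℝ, 0 ≤ r → r ≤ 1 / 2 →
    |(vis p q U x c r : ℝ) - 2 * r * U.card| ≤ t * U.card

/-- At most the proportion `η` of the pairs of `U` leave `U` when their first (second) component is
increased by one. -/
def NearlyInvariant (U : Finset (ℕ × ℕ)) (η : ℝ) : Prop :=
  ({u : ℕ × ℕ | u ∈ U ∧ (u.1 + 1, u.2) ∉ U}.ncard : ℝ) ≤ η * U.card ∧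
  ({u : ℕ × ℕ | u ∈ U ∧ (u.1, u.2 + 1) ∉ U}.ncard : ℝ) ≤ η * U.card

end Run7.h303.RT
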