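import Pool.Agent.Run7.h303.RT.Defs
import Pool.Agent.Y314.FD.Padic

/-!
The cluster lemma for general windows, with the weights; separated families; visits of torsion
points.
-/

set_option autoImplicit false

open MeasureTheory Filter Topology Set
open scoped ENNReal BoundedContinuousFunction

namespace Run7.h303.RT

open Pool.Agent.W764.FB Pool.Agent.W764.SH Pool.Agent.W764.HL Pool.Agent.Y314.FD

/-- maximal separated families -/
lemma exists_net {α : Type*} (B : Set α) (R : α → α → Prop) (hR : ∀ a b, R a b → R b a)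
    (hirr : ∀ a, ¬ R a a) (m : ℕ)
    (h : ∀ x : Fin m → α, (∀ i, x i ∈ B) → (∀ i j, i ≠ j → R (x i) (x j)) → False) :
    ∃ S : Finset α, S.card < m ∧ (∀ s ∈ S, s ∈ B) ∧ ∀ y ∈ B, ∃ s ∈ S, ¬ R y s := by
  classical
  set P : ℕ → Prop := fun n => ∃ S : Finset α, (∀ s ∈ S, s ∈ B) ∧ S.card = n ∧
    ∀ a ∈ S, ∀ b ∈ S, a ≠ b → R a b with hP
  have hP0 : P 0 := ⟨∅, by simp, rfl, by simp⟩
  have hPm : ¬ P m := by
    rintro ⟨S, hSB, hSm, hSR⟩
    set e := (S.equivFinOfCardEq hSm).symm with he
    refine h (fun i => (e i : α)) (fun i => hSB _ (e i).2) fun i j hij => ?_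
    refine hSR _ (e i).2 _ (e j).2 fun hcon => hij ?_
    exact e.injective (Subtype.ext hcon)
  set n0 := Nat.findGreatest P m with hn0
  have hPn : P n0 := Nat.findGreatest_spec (Nat.zero_le m) hP0
  have hn0m : n0 ≤ m := Nat.findGreatest_le m
  have hlt : n0 < m := lt_of_le_of_ne hn0m fun hcon => hPm (hcon ▸ hPn)
  obtain ⟨S, hSB, hSc, hSR⟩ := hPn
  refine ⟨S, by omega, hSB, fun y hy => ?_⟩
  by_contra hcon
  push Not at hcon
  have hyS : y ∉ S := fun hyS => hirr y (hcon y hyS)
  have hP1 : P (n0 + 1) := by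
    refine ⟨insert y S, ?_, ?_, ?_⟩
    · intro s hs
      rw [Finset.mem_insert] at hs
      rcases hs with rfl | hs
      · exact hy
      · exact hSB s hs
    · rw [Finset.card_insert_of_notMem hyS, hSc]
    · intro a ha b hb hab
      rw [Finset.mem_insert] at ha hb
      rcases ha with rfl | ha
      · rcases hb with rfl | hb
        · exact absurd rfl hab
        · exact hcon b hb
      · rcases hb with rfl | hb
        · exact hR _ _ (hcon a ha)
        · exact hSR a ha b hb hab
  have := Nat.le_findGreatest (P := P) (by omega : n0 + 1 ≤ m) hP1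
  omega

section
variable {p q : ℕ}

open Classical in
lemma vis_eq (U : Finset (ℕ × ℕ)) (x c : T) (r : ℝ) : vis p q U x c r = hit p q U x c r := by
  unfold vis hit
  rw [← Set.ncard_coe_finset]
  congr 1
  ext u
  rw [Finset.mem_coe, Finset.mem_filter]
  simp only [Set.mem_ofPred_eq, Metric.mem_closedBall, dist_eq_norm]
  rfl

/-- a point with large discrepancy visits some arc too rarely -/
lemma exists_poor_arc {U : Finset (ℕ × ℕ)} {t : ℝ} {x : T} (h : ¬ DiscLe p q U t x) :
    ∃ c : T, ∃ r : ℝ, r ≤ 1 / 2 ∧ (hit p q U x c r : ℝ) < (2 * r - t) * U.card := by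
  classical
  by_contra hcon
  push Not at hcon
  apply h
  intro c r hr0 hr
  rw [vis_eq, abs_le]
  have hW : (0 : ℝ) ≤ U.card := Nat.cast_nonneg _
  refine ⟨by nlinarith [hcon c r hr], ?_⟩
  have key : ∀ η : ℝ, 0 < η → (hit p q U x c r : ℝ) ≤ (2 * r + t) * U.card + η := by
    intro η0 hη0
    set η := η0 / (2 * (U.card + 1)) with hη
    have hη1 : 0 < η := by positivity
    have h1 := hcon (c + ((1 / 2 : ℝ) : T)) (1 / 2 - r - η) (by linarith)
    have hdisj : hit p q U x c r + hit p q U x (c + ((1 / 2 : ℝ) : T)) (1 / 2 - r - η) ≤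
        U.card := by
      unfold hit
      rw [← Finset.card_union_of_disjoint]
      · exact Finset.card_le_card (Finset.union_subset (Finset.filter_subset _ _)
          (Finset.filter_subset _ _))
      · rw [Finset.disjoint_left]
        intro u hn hn'
        rw [Finset.mem_filter] at hn hn'
        have h3 : ‖((1 / 2 : ℝ) : T)‖ = 1 / 2 := by
          have h4 := (AddCircle.norm_coe_eq_abs_iff (p := (1 : ℝ)) (x := 1 / 2) one_ne_zero).2 (by
            rw [abs_one, abs_of_nonneg (by norm_num)])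
          rw [h4, abs_of_nonneg (by norm_num)]
        have h4 : ((1 / 2 : ℝ) : T) = (mul p q u • x - c) -
          (mul p q u • x - (c + ((1 / 2 : ℝ) : T))) := by abel
        have h5 : ‖((1 / 2 : ℝ) : T)‖ ≤ ‖mul p q u • x - c‖ +
            ‖mul p q u • x - (c + ((1 / 2 : ℝ) : T))‖ := by
          conv_lhs => rw [h4]
          exact norm_sub_le _ _
        rw [h3] at h5
        have := hn.2
        have := hn'.2
        linarith
    have h2 : (hit p q U x c r : ℝ) +
        hit p q U x (c + ((1 / 2 : ℝ) : T)) (1 / 2 - r - η) ≤ U.card := by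
      exact_mod_cast hdisj
    have h3 : 2 * η * U.card ≤ η0 := by
      rw [hη]
      rw [mul_div_assoc', div_mul_eq_mul_div, div_le_iff₀ (by positivity)]
      nlinarith
    nlinarith
  have := le_of_forall_pos_le_add key
  linarith

open Classical in
/-- **Clusters, general windows, with weights.** -/
theorem cluster_alpha (hp : 2 ≤ p) (hq : 2 ≤ q) (hpq : Nat.Coprime p q) (m : ℕ) {C : ℝ}
    (hC : 0 < C) {ε : ℝ} (hε : 0 < ε) : ∃ N : ℕ, 8 ≤ N ∧
      ∀ U : Finset (ℕ × ℕ), U.Nonempty →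
        ((U.filter fun u => u + (1, 0) ∉ U).card : ℝ) ≤ 1 / (2 * N) * U.card →
        ((U.filter fun u => u + (0, 1) ∉ U).card : ℝ) ≤ 1 / (2 * N) * U.card →
        ∀ x : Fin m → T, (∀ i j, i ≠ j → ∀ c : T, ∀ k : ℕ, 8 ≤ k → k ≤ N →
          (hit p q U (x i - x j) c (1 / k) : ℝ) ≤ (C * (1 / k) + 1 / N) * U.card) →
        ∃ α : Fin m → ℝ, (∀ i, 0 ≤ α i ∧ α i ≤ 1) ∧ ∑ i, (1 - α i) ≤ 1 ∧
          ∀ i, ∀ c : T, ∀ r : ℝ, r ≤ 1 / 2 →
            (2 * r * α i - ε) * U.card ≤ hit p q U (x i) c r := by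
  obtain ⟨N, hN8, hN⟩ := compactness (m := m) hp hq hpq hC hε
  have hN0 : (0 : ℝ) < N := by
    have : 0 < N := by omega
    exact_mod_cast this
  refine ⟨N, hN8, fun U hU hinvp hinvq x hx => ?_⟩
  have hUR : (0 : ℝ) < U.card := by exact_mod_cast hU.card_pos
  have hprob := empw_prob (p := p) (q := q) hU x
  obtain ⟨α, hα1, hα2, hα3⟩ := hN (empw p q U x) hprob (by
    intro s hs f hf
    obtain ⟨e, he1, he2⟩ : ∃ e : ℕ × ℕ, (∀ u, mul p q (u + e) = s * mul p q u) ∧
        ((U.filter fun u => u + e ∉ U).card : ℝ) ≤ 1 / (2 * N) * U.card := by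
      rcases hs with rfl | rfl
      · refine ⟨(1, 0), fun u => ?_, hinvp⟩
        show s ^ (u.1 + 1) * q ^ (u.2 + 0) = s * (s ^ u.1 * q ^ u.2)
        ring
      · refine ⟨(0, 1), fun u => ?_, hinvq⟩
        show p ^ (u.1 + 0) * s ^ (u.2 + 1) = s * (p ^ u.1 * s ^ u.2)
        ring
    rw [empw_integral U x (fun z => f (s • z)) (f.continuous.comp (continuous_nsmul s)),
      empw_integral U x (fun z => f z) f.continuous, ← mul_sub, abs_mul,
      abs_of_pos (inv_pos.2 hUR), inv_mul_le_iff₀ hUR]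
    have h1 := sum_translate (U := U) (e := e) (fun u => f (mul p q u • x)) fun n => hf _
    have h2 : ∀ u : ℕ × ℕ, f (mul p q (u + e) • x) = f (s • mul p q u • x) := fun u => by
      rw [he1, mul_smul]
    simp_rw [h2] at h1
    refine h1.trans ?_
    calc 2 * ((U.filter fun n => n + e ∉ U).card : ℝ) ≤ 2 * (1 / (2 * N) * U.card) := by gcongr
      _ = U.card * (1 / N) := by field_simp) (by
    intro i j hij c k hk1 hk2
    have hmeas : MeasurableSet {z : Fin m → T | ‖z i - z j - c‖ ≤ 1 / (k : ℝ)} :=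
      (isClosed_le (by fun_prop) continuous_const).measurableSet
    rw [empw_real U x hmeas, inv_mul_le_iff₀ hUR]
    have h3 := hx i j hij c k hk1 hk2
    rw [mul_comm (U.card : ℝ)]
    refine le_trans (le_of_eq ?_) h3
    unfold hit
    congr 2
    refine Finset.filter_congr fun n _ => ?_
    rw [smul_sub]
    rfl)
  refine ⟨α, hα1, hα2, fun i c r hr => ?_⟩
  have h1 := hα3 i c r hr
  have hmeas : MeasurableSet {z : Fin m → T | ‖z i - c‖ ≤ r} :=
    (isClosed_le (by fun_prop) continuous_const).measurableSet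
  rw [empw_real U x hmeas, ← div_eq_inv_mul, le_div_iff₀ hUR] at h1
  refine h1.trans (le_of_eq ?_)
  unfold hit
  congr 2

open Classical in
/-- visits at translated pairs -/
lemma sum_shift (U : Finset (ℕ × ℕ)) (F : ℕ × ℕ → ℝ) (hF : ∀ n, |F n| ≤ 1) (s : ℕ) :
    ∑ u ∈ U, F u ≤ ∑ u ∈ U, F (u + (0, s)) +
      2 * s * ((U.filter fun u => u + (0, 1) ∉ U).card : ℝ) := by
  induction s with
  | zero =>
    have h : ∀ u : ℕ × ℕ, u + (0, 0) = u := fun u => add_zero u
    simp only [h]
    simp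
  | succ s ih =>
    have h1 := sum_translate (U := U) (e := (0, 1)) (fun u => F (u + (0, s))) fun n => hF _
    rw [abs_le] at h1
    have h2 : ∀ u : ℕ × ℕ, u + (0, 1) + (0, s) = u + (0, s + 1) := by
      intro u
      rw [add_assoc]
      congr 1
      show ((0 : ℕ) + 0, 1 + s) = (0, s + 1)
      rw [add_comm 1 s]
    simp only [h2] at h1
    push_cast
    linarith [h1.1]

open Classical in
/-- **Visits of torsion points.** -/
theorem torsion_hit {r : ℕ} (hp : 2 ≤ p) (hq : 2 ≤ q) (hrp : Nat.Coprime r p)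
    (hrq : Nat.Coprime r q) {C : ℕ} (hC1 : 1 ≤ C)
    (hC : ∀ d r' s : ℕ, 1 ≤ d → s ∣ r ^ r' → s ∣ q ^ d - 1 → s ≤ C * d) {z : T} {h : ℕ}
    (hr : 1 ≤ r) (hz : r ^ h • z = 0) (c : T) {ρ : ℝ} (hρ : 0 ≤ ρ) (U : Finset (ℕ × ℕ)) {E : ℕ}
    (hE : 1 ≤ E) :
    (hit p q U z c ρ : ℝ) ≤ ((C : ℝ) / addOrderOf z + 1 / E) * (2 * ρ * addOrderOf z + 1) * U.card +
      2 * E * ((U.filter fun u => u + (0, 1) ∉ U).card : ℝ) := by
  set X := ((U.filter fun u => u + (0, 1) ∉ U).card : ℝ) with hX
  have hX0 : 0 ≤ X := Nat.cast_nonneg _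
  have hER : (0 : ℝ) < E := by exact_mod_cast hE
  set d := addOrderOf z with hd
  have hdvd : d ∣ r ^ h := addOrderOf_dvd_of_nsmul_eq_zero hz
  have hd0 : 0 < d := Nat.pos_of_dvd_of_pos hdvd (by positivity)
  have hdR : (0 : ℝ) < d := by exact_mod_cast hd0
  set F : ℕ × ℕ → ℝ := fun u => if ‖mul p q u • z - c‖ ≤ ρ then 1 else 0 with hF
  have hF1 : ∀ u, |F u| ≤ 1 := by
    intro u
    simp only [hF]
    split_ifs <;> simp
  have hhit : (hit p q U z c ρ : ℝ) = ∑ u ∈ U, F u := by
    unfold hit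
    rw [Finset.card_filter]
    push_cast
    rfl
  have hmain : (E : ℝ) * hit p q U z c ρ ≤
      ((E * C / d + 1) * (2 * ρ * d + 1)) * U.card + E * (2 * E * X) := by
    have h1 : ∑ s ∈ Finset.range E, ∑ u ∈ U, F u ≤
        ∑ s ∈ Finset.range E, (∑ u ∈ U, F (u + (0, s)) + 2 * E * X) := by
      refine Finset.sum_le_sum fun s hs => ?_
      rw [Finset.mem_range] at hs
      have h2 := sum_shift U F hF1 s
      have h3 : 2 * (s : ℝ) * X ≤ 2 * E * X := by
        have : (s : ℝ) ≤ E := by exact_mod_cast hs.le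
        gcongr
      rw [← hX] at h2
      linarith
    rw [Finset.sum_const, Finset.card_range, nsmul_eq_mul, ← hhit, Finset.sum_add_distrib,
      Finset.sum_const, Finset.card_range, nsmul_eq_mul, Finset.sum_comm] at h1
    refine h1.trans ?_
    refine add_le_add ?_ le_rfl
    have h2 : ∀ u ∈ U, ∑ s ∈ Finset.range E, F (u + (0, s)) ≤
        (E * C / d + 1) * (2 * ρ * d + 1) := by
      intro u _
      have hord : addOrderOf (mul p q u • z) = d := by
        rw [hd]
        refine Nat.Coprime.addOrderOf_nsmul ?_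
        refine Nat.Coprime.coprime_dvd_left hdvd ?_
        unfold mul
        exact Nat.Coprime.mul_right (hrp.pow _ _) (hrq.pow _ _)
      have hz' : r ^ h • (mul p q u • z) = 0 := by
        rw [smul_comm, hz, smul_zero]
      have h3 := orbit_count (p := r) (q := q) hq hrq hC1 hC hz' c hρ E (by rw [hord]; omega)
      rw [hord] at h3
      refine le_trans (le_of_eq ?_) h3
      rw [Finset.card_filter]
      push_cast
      refine Finset.sum_congr rfl fun s _ => ?_
      have e : mul p q (u + (0, s)) • z = q ^ s • (mul p q u • z) := by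
        rw [← mul_smul]
        congr 1
        show p ^ (u.1 + 0) * q ^ (u.2 + s) = q ^ s * (p ^ u.1 * q ^ u.2)
        ring
      simp only [hF]
      rw [e]
    refine (Finset.sum_le_sum h2).trans ?_
    rw [Finset.sum_const, nsmul_eq_mul, mul_comm]
  have h2 : (E : ℝ) * hit p q U z c ρ ≤ E * (((C : ℝ) / d + 1 / E) * (2 * ρ * d + 1) * U.card +
      2 * E * X) := by
    refine hmain.trans (le_of_eq ?_)
    field_simp
  exact le_of_mul_le_mul_left h2 hER

end

end Run7.h303.RT
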