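import Pool.Agent.Run7.h303.RT.Gen

/-!
The solutions of `r ^ h y = x` which are badly distributed along a nearly invariant window.
-/

set_option autoImplicit false

open MeasureTheory Filter Topology Set

namespace Run7.h303.RT

open Pool.Agent.W764.FB Pool.Agent.W764.SH Pool.Agent.W764.HL Pool.Agent.Y314.FD

variable {p q : ℕ}

open Classical in
lemma ni_card1 (U : Finset (ℕ × ℕ)) : {u : ℕ × ℕ | u ∈ U ∧ (u.1 + 1, u.2) ∉ U}.ncard =
    (U.filter fun u => u + (1, 0) ∉ U).card := by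
  rw [← Set.ncard_coe_finset]
  congr 1
  ext u
  rw [Finset.mem_coe, Finset.mem_filter]
  rfl

open Classical in
lemma ni_card2 (U : Finset (ℕ × ℕ)) : {u : ℕ × ℕ | u ∈ U ∧ (u.1, u.2 + 1) ∉ U}.ncard =
    (U.filter fun u => u + (0, 1) ∉ U).card := by
  rw [← Set.ncard_coe_finset]
  congr 1
  ext u
  rw [Finset.mem_coe, Finset.mem_filter]
  rfl

/-- **Badly distributed roots.** -/
theorem roots (hp : 2 ≤ p) (hq : 2 ≤ q) (hpq : Nat.Coprime p q) {r : ℕ} (hr : 2 ≤ r)
    (hrp : Nat.Coprime r p) (hrq : Nat.Coprime r q) {t : ℝ} (ht : 0 < t) :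
    ∃ h0 : ℕ, ∀ h : ℕ, ∃ η : ℝ, 0 < η ∧ ∀ U : Finset (ℕ × ℕ), U.Nonempty →
      NearlyInvariant U η → ∀ x : T, ∃ S : Finset T, (S.card : ℝ) ≤ 1 / t ∧
        ∀ y : T, r ^ h • y = x → ¬ DiscLe p q U t y → ∃ s ∈ S, r ^ h0 • (y - s) = 0 := by
  classical
  set m : ℕ := ⌊1 / t⌋₊ + 1 with hm
  have hmt : 1 / t < m := by rw [hm]; push_cast; exact Nat.lt_floor_add_one _
  have hmR : (0 : ℝ) < m := lt_trans (by positivity) hmt
  have hmt' : 1 < m * t := by
    rw [div_lt_iff₀ ht] at hmt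
    exact hmt
  set ε : ℝ := (t - 1 / m) / 2 with hε
  have hε0 : 0 < ε := by
    have : 1 / (m : ℝ) < t := by
      rw [div_lt_iff₀ hmR]; linarith
    rw [hε]; linarith
  have hmε : 1 < m * (t - ε) := by
    have e : (m : ℝ) * (t - ε) = (m * t + 1) / 2 := by
      rw [hε]; field_simp; ring
    rw [e]; linarith
  obtain ⟨C1, hC1, hC⟩ := ord_cop r q hr hq hrq
  have hC1R : (0 : ℝ) < C1 := by exact_mod_cast hC1
  obtain ⟨N, hN8, hcl⟩ := cluster_alpha hp hq hpq m (C := 2 * C1) (by positivity) hε0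
  have hNR : (8 : ℝ) ≤ N := by exact_mod_cast hN8
  have hN0 : (0 : ℝ) < N := by linarith
  refine ⟨4 * N * C1, fun h => ?_⟩
  set E : ℕ := 8 * N * (r ^ h + 1) with hE
  have hE1 : 1 ≤ E := by
    rw [hE]
    have h1 : 0 < N := by omega
    have h2 : 0 < r ^ h + 1 := Nat.succ_pos _
    have h3 : 0 < 8 * N * (r ^ h + 1) := by positivity
    omega
  have hER : (0 : ℝ) < E := by exact_mod_cast hE1
  set η : ℝ := 1 / (16 * N * E) with hη
  have hη0 : 0 < η := by positivity
  have hηN : η ≤ 1 / (2 * N) := by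
    rw [hη]
    have hE1R : (1 : ℝ) ≤ E := by exact_mod_cast hE1
    rw [div_le_div_iff₀ (by positivity) (by positivity)]
    nlinarith
  refine ⟨η, hη0, fun U hU hinv x => ?_⟩
  have hUR : (0 : ℝ) < U.card := by exact_mod_cast hU.card_pos
  obtain ⟨hinv1, hinv2⟩ := hinv
  rw [ni_card1] at hinv1
  rw [ni_card2] at hinv2
  set B : Set T := {y | r ^ h • y = x ∧ ¬ DiscLe p q U t y} with hB
  obtain ⟨S, hSm, -, hS⟩ := exists_net B (fun a b => r ^ (4 * N * C1) • (a - b) ≠ 0)
    (fun a b hab => by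
      intro hcon
      apply hab
      have : a - b = -(b - a) := by abel
      rw [this, smul_neg, hcon, neg_zero])
    (fun a => by simp) m (by
    intro y hyB hyR
    obtain ⟨α, hα1, hα2, hα3⟩ := hcl U hU
      (hinv1.trans (mul_le_mul_of_nonneg_right hηN hUR.le))
      (hinv2.trans (mul_le_mul_of_nonneg_right hηN hUR.le)) y (by
      intro i j hij c k hk1 hk2
      set z := y i - y j with hz
      have hz0 : r ^ h • z = 0 := by
        rw [hz, smul_sub, (hyB i).1, (hyB j).1, sub_self]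
      have hz1 : r ^ (4 * N * C1) • z ≠ 0 := hyR i j hij
      have hd1 : addOrderOf z ∣ r ^ h := addOrderOf_dvd_of_nsmul_eq_zero hz0
      have hd0 : 0 < addOrderOf z := Nat.pos_of_dvd_of_pos hd1 (by positivity)
      have hd2 : 4 * N * C1 < addOrderOf z := by
        by_contra hle
        push Not at hle
        exact hz1 (addOrderOf_dvd_iff_nsmul_eq_zero.1 (dvd_small hd0 hd1 hle))
      have hd3 : addOrderOf z ≤ r ^ h := Nat.le_of_dvd (by positivity) hd1
      have hkR : (8 : ℝ) ≤ k := by exact_mod_cast hk1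
      have hk0 : (0 : ℝ) < 1 / k := by positivity
      have hk8 : (1 : ℝ) / k ≤ 1 / 8 := by
        rw [div_le_div_iff₀ (by linarith) (by norm_num)]; linarith
      have h1 := torsion_hit hp hq hrp hrq hC1 hC (by omega) hz0 c hk0.le U hE1
      refine h1.trans ?_
      set d := addOrderOf z with hd
      have hdR : (0 : ℝ) < d := by exact_mod_cast hd0
      have h2 : (C1 : ℝ) / d ≤ 1 / (4 * N) := by
        rw [div_le_div_iff₀ hdR (by positivity)]
        have h3 : ((4 * N * C1 : ℕ) : ℝ) ≤ d := by exact_mod_cast hd2.le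
        push_cast at h3
        linarith
      have h4 : (2 * (1 / k) * d + 1) / (E : ℝ) ≤ 1 / (8 * N) := by
        have h5 : (d : ℝ) ≤ ((r ^ h : ℕ) : ℝ) := by exact_mod_cast hd3
        have h6 : 2 * (1 / (k : ℝ)) ≤ 1 := by linarith
        have h7 : 2 * (1 / (k : ℝ)) * d ≤ 1 * d := mul_le_mul_of_nonneg_right h6 hdR.le
        rw [div_le_div_iff₀ hER (by positivity)]
        rw [hE]
        push_cast
        push_cast at h5
        nlinarith
      have h8 : 2 * (E : ℝ) * ((U.filter fun u => u + (0, 1) ∉ U).card : ℝ) ≤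
          1 / (8 * N) * U.card := by
        calc 2 * (E : ℝ) * ((U.filter fun u => u + (0, 1) ∉ U).card : ℝ)
            ≤ 2 * E * (η * U.card) := mul_le_mul_of_nonneg_left hinv2 (by positivity)
          _ = 1 / (8 * N) * U.card := by
              rw [hη]; field_simp; norm_num
      have h9 : ((C1 : ℝ) / d + 1 / E) * (2 * (1 / k) * d + 1) =
          2 * C1 * (1 / k) + C1 / d + (2 * (1 / k) * d + 1) / E := by
        field_simp
      rw [h9]
      have h10 : (2 * C1 * (1 / k) + C1 / d + (2 * (1 / k) * d + 1) / E) * (U.card : ℝ) ≤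
          (2 * C1 * (1 / k) + 1 / (4 * N) + 1 / (8 * N)) * U.card := by
        refine mul_le_mul_of_nonneg_right ?_ hUR.le
        linarith
      have h11 : (2 * C1 * (1 / k) + 1 / (N : ℝ)) * (U.card : ℝ) =
          (2 * C1 * (1 / k) + 1 / (4 * N) + 1 / (8 * N)) * U.card + 1 / (8 * N) * U.card +
            1 / (2 * N) * U.card := by
        field_simp
        ring
      have h12 : 0 ≤ 1 / (2 * (N : ℝ)) * U.card := by positivity
      linarith)
    have hlow : ∀ i, t - ε < 1 - α i := by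
      intro i
      obtain ⟨c, ρ, hρ, hlt⟩ := exists_poor_arc (hyB i).2
      have h1 := (hα3 i c ρ hρ).trans_lt hlt
      have h2 : 2 * ρ * α i - ε < 2 * ρ - t := lt_of_mul_lt_mul_right h1 hUR.le
      have h3 := (hα1 i).2
      have h4 : 2 * ρ * (1 - α i) ≤ 1 * (1 - α i) :=
        mul_le_mul_of_nonneg_right (by linarith) (by linarith)
      nlinarith
    have hsum : (m : ℝ) * (t - ε) ≤ ∑ i, (1 - α i) := by
      have := Finset.card_nsmul_le_sum (Finset.univ : Finset (Fin m)) (fun i => 1 - α i) (t - ε)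
        fun i _ => (hlow i).le
      rwa [Finset.card_univ, Fintype.card_fin, nsmul_eq_mul] at this
    linarith)
  refine ⟨S, ?_, fun y hy1 hy2 => ?_⟩
  · have h1 : S.card ≤ ⌊1 / t⌋₊ := by omega
    have h2 : (S.card : ℝ) ≤ (⌊1 / t⌋₊ : ℝ) := by exact_mod_cast h1
    exact h2.trans (Nat.floor_le (by positivity))
  · obtain ⟨s, hs1, hs2⟩ := hS y ⟨hy1, hy2⟩
    exact ⟨s, hs1, not_not.1 hs2⟩

end Run7.h303.RT
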